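import Mathlib

/-!
# MP_01f920_co: k-sets with prescribed intersections with the classes of a partition

The conjectured sufficient condition for the EKR property is disproved, together with two
large explicit regions of parameters in which the EKR property fails although all side
conditions of the conjecture hold.
-/

namespace Pool.Agent.Results.MP_01f920_co.BeatStars

open Finset

/-- The class `X_i` of the partition of the ground set `Fin N` given by the colouring `c`. -/
def cls {N d : ℕ} (c : Fin N → Fin d) (i : Fin d) : Finset (Fin N) :=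
  univ.filter (fun x => c x = i)

/-- The slack `s = k - (k_1 + ... + k_d)`. -/
def slack {d : ℕ} (k : ℕ) (kk : Fin d → ℕ) : ℕ := k - ∑ i, kk i

/-- The family `H` of all `k`-subsets `F` of the ground set with `|F ∩ X_i| ≥ k_i` for all `i`. -/
def fam {N d : ℕ} (c : Fin N → Fin d) (k : ℕ) (kk : Fin d → ℕ) : Finset (Finset (Fin N)) :=
  univ.filter (fun F => F.card = k ∧ ∀ i, kk i ≤ (F ∩ cls c i).card)

/-- The standing assumptions on the parameters: `n_i > k_i` for all `i`, and
`k ≥ k_1 + ... + k_d`. -/
def Standing {N d : ℕ} (c : Fin N → Fin d) (k : ℕ) (kk : Fin d → ℕ) : Prop :=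
  (∀ i, kk i < (cls c i).card) ∧ ∑ i, kk i ≤ k

/-- The EKR property of `H`: every intersecting subfamily is at most as large as some star
`H(x)`. -/
def HasEKR {N d : ℕ} (c : Fin N → Fin d) (k : ℕ) (kk : Fin d → ℕ) : Prop :=
  ∀ G ⊆ fam c k kk, (G : Set (Finset (Fin N))).Intersecting →
    ∃ x, G.card ≤ ((fam c k kk).filter (fun F => x ∈ F)).card

section aux

variable {N d : ℕ} {c : Fin N → Fin d} {k : ℕ} {kk : Fin d → ℕ}

lemma mem_cls {i : Fin d} {x : Fin N} : x ∈ cls c i ↔ c x = i := by simp [cls]

lemma mem_fam {F : Finset (Fin N)} :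
    F ∈ fam c k kk ↔ F.card = k ∧ ∀ i, kk i ≤ (F ∩ cls c i).card := by simp [fam]

lemma card_eq_sum (F : Finset (Fin N)) : F.card = ∑ i, (F ∩ cls c i).card := by
  rw [card_eq_sum_card_fiberwise (f := c) (t := univ) (fun x _ => mem_coe.2 (mem_univ _))]
  refine sum_congr rfl fun i _ => ?_
  congr 1
  ext x
  simp [mem_cls]

lemma inter_cls_le {F : Finset (Fin N)} (hF : F ∈ fam c k kk) (hs : ∑ i, kk i ≤ k) (j : Fin d) :
    (F ∩ cls c j).card ≤ kk j + slack k kk := by
  obtain ⟨h1, h2⟩ := mem_fam.1 hF
  have h3 := card_eq_sum (c := c) F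
  rw [← Finset.add_sum_erase _ _ (mem_univ j)] at h3
  have h4 : ∑ i ∈ univ.erase j, kk i ≤ ∑ i ∈ univ.erase j, (F ∩ cls c i).card :=
    sum_le_sum fun i _ => h2 i
  have h5 := Finset.add_sum_erase univ kk (mem_univ j)
  unfold slack
  omega

/-- Within one class all stars have the same size. -/
lemma star_eq {x y : Fin N} (h : c x = c y) :
    ((fam c k kk).filter (fun F => x ∈ F)).card = ((fam c k kk).filter (fun F => y ∈ F)).card := by
  classical
  have key : ∀ u v : Fin N, c u = c v → ∀ F ∈ (fam c k kk).filter (fun F => u ∈ F),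
      F.map (Equiv.swap u v).toEmbedding ∈ (fam c k kk).filter (fun F => v ∈ F) := by
    intro u v huv F hF
    rw [mem_filter, mem_fam] at hF ⊢
    obtain ⟨⟨h1, h2⟩, h3⟩ := hF
    refine ⟨⟨by simpa using h1, fun i => ?_⟩, ?_⟩
    · refine (h2 i).trans (le_of_eq ?_)
      have : F.map (Equiv.swap u v).toEmbedding ∩ cls c i
          = (F ∩ cls c i).map (Equiv.swap u v).toEmbedding := by
        rw [map_inter]
        congr 1
        ext z
        simp only [mem_cls, mem_map_equiv, Equiv.symm_swap]
        rcases eq_or_ne z u with rfl | hzu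
        · rw [Equiv.swap_apply_left, huv]
        rcases eq_or_ne z v with rfl | hzv
        · rw [Equiv.swap_apply_right, huv]
        rw [Equiv.swap_apply_of_ne_of_ne hzu hzv]
      rw [this, card_map]
    · rw [mem_map_equiv]
      simpa using h3
  refine card_nbij' (fun F => F.map (Equiv.swap x y).toEmbedding)
    (fun F => F.map (Equiv.swap y x).toEmbedding) (key x y h) (key y x h.symm) ?_ ?_
  · intro F _
    ext z
    simp [mem_map_equiv, Equiv.swap_comm x y]
  · intro F _
    ext z
    simp [mem_map_equiv, Equiv.swap_comm x y]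

lemma double_count (j : Fin d) :
    ∑ x ∈ cls c j, ((fam c k kk).filter (fun F => x ∈ F)).card
      = ∑ F ∈ fam c k kk, (F ∩ cls c j).card := by
  classical
  have := Finset.sum_card_bipartiteAbove_eq_sum_card_bipartiteBelow
    (s := cls c j) (t := fam c k kk) (fun (x : Fin N) (F : Finset (Fin N)) => x ∈ F)
  unfold bipartiteAbove bipartiteBelow at this
  rw [this]
  refine sum_congr rfl fun F _ => ?_
  congr 1
  ext x
  simp [and_comm]

lemma star_le_half {y : Fin N} (hs : ∑ i, kk i ≤ k)
    (h : 2 * (kk (c y) + slack k kk) ≤ (cls c (c y)).card) :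
    2 * ((fam c k kk).filter (fun F => y ∈ F)).card ≤ (fam c k kk).card := by
  classical
  have h1 := double_count (c := c) (k := k) (kk := kk) (c y)
  have h2 : ∑ x ∈ cls c (c y), ((fam c k kk).filter (fun F => x ∈ F)).card
      = (cls c (c y)).card * ((fam c k kk).filter (fun F => y ∈ F)).card := by
    rw [sum_const_nat fun x hx => star_eq (mem_cls.1 hx)]
  have h3 : ∑ F ∈ fam c k kk, (F ∩ cls c (c y)).card
      ≤ (fam c k kk).card * (kk (c y) + slack k kk) := by
    rw [← smul_eq_mul]
    exact sum_le_card_nsmul _ _ _ fun F hF => inter_cls_le hF hs _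
  have hpos : 0 < (cls c (c y)).card := card_pos.2 ⟨y, mem_cls.2 rfl⟩
  rw [h2] at h1
  rw [← h1] at h3
  have h4 : (cls c (c y)).card * (2 * ((fam c k kk).filter (fun F => y ∈ F)).card)
      ≤ (cls c (c y)).card * (fam c k kk).card := by
    nlinarith [Nat.mul_le_mul_left (fam c k kk).card h]
  exact Nat.le_of_mul_le_mul_left h4 hpos

lemma half_le_star {x : Fin N} (h : (cls c (c x)).card ≤ 2 * kk (c x)) :
    (fam c k kk).card ≤ 2 * ((fam c k kk).filter (fun F => x ∈ F)).card := by
  classical
  have h1 := double_count (c := c) (k := k) (kk := kk) (c x)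
  have h2 : ∑ y ∈ cls c (c x), ((fam c k kk).filter (fun F => y ∈ F)).card
      = (cls c (c x)).card * ((fam c k kk).filter (fun F => x ∈ F)).card := by
    rw [sum_const_nat fun y hy => star_eq (mem_cls.1 hy)]
  have h3 : (fam c k kk).card * kk (c x) ≤ ∑ F ∈ fam c k kk, (F ∩ cls c (c x)).card := by
    rw [← smul_eq_mul]
    exact card_nsmul_le_sum _ _ _ fun F hF => (mem_fam.1 hF).2 _
  have hpos : 0 < (cls c (c x)).card := card_pos.2 ⟨x, mem_cls.2 rfl⟩
  rw [← h1, h2] at h3
  have h4 : (cls c (c x)).card * (fam c k kk).card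
      ≤ (cls c (c x)).card * (2 * ((fam c k kk).filter (fun F => x ∈ F)).card) := by
    nlinarith [Nat.mul_le_mul_left (fam c k kk).card h]
  exact Nat.le_of_mul_le_mul_left h4 hpos

/-- If every star is beaten by some intersecting subfamily, one intersecting subfamily beats all
stars. -/
lemma not_ekr_of_beat
    (h : ∀ x, (∀ y, ((fam c k kk).filter (fun F => y ∈ F)).card
        ≤ ((fam c k kk).filter (fun F => x ∈ F)).card) →
      ∃ G ⊆ fam c k kk, (G : Set (Finset (Fin N))).Intersecting ∧
        ((fam c k kk).filter (fun F => x ∈ F)).card < G.card)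
    (hN : Nonempty (Fin N)) : ¬ HasEKR c k kk := by
  intro hE
  obtain ⟨x, -, hx⟩ := exists_max_image (univ : Finset (Fin N))
    (fun x => ((fam c k kk).filter (fun F => x ∈ F)).card) ⟨hN.some, mem_univ _⟩
  obtain ⟨G, hG, hI, hlt⟩ := h x fun y => hx y (mem_univ y)
  obtain ⟨y, hy⟩ := hE G hG hI
  have := hx y (mem_univ y)
  omega

/-- A member of `H` with a prescribed number `a` of elements in the class `i`, avoiding a given
point `x`. -/
lemma exists_member (hst : Standing c k kk) (i : Fin d) (a : ℕ) (x : Fin N)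
    (h1 : kk i ≤ a) (h2 : a < (cls c i).card) (h3 : a ≤ kk i + slack k kk)
    (h4 : k + (cls c i).card < N + a) :
    ∃ F ∈ fam c k kk, x ∉ F ∧ (F ∩ cls c i).card = a := by
  classical
  obtain ⟨hlt, hsum⟩ := hst
  -- small pieces in each class
  have hpc : ∀ j, ∃ P ⊆ (cls c j).erase x, P.card = if j = i then a else kk j := by
    intro j
    refine exists_subset_card_eq ?_
    have := pred_card_le_card_erase (s := cls c j) (a := x)
    split_ifs with hj
    · subst hj; omega
    · have := hlt j; omega
  choose P hP hPc using hpc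
  set A : Finset (Fin N) := univ.biUnion P with hA
  have hPj : ∀ j, A ∩ cls c j = P j := by
    intro j
    ext z
    simp only [hA, mem_inter, mem_biUnion, mem_univ, true_and, mem_cls]
    constructor
    · rintro ⟨⟨l, hl⟩, hz⟩
      have := mem_cls.1 (mem_of_mem_erase (hP l hl))
      rw [hz] at this
      rwa [this]
    · intro hz
      exact ⟨⟨j, hz⟩, mem_cls.1 (mem_of_mem_erase (hP j hz))⟩
  have hxA : x ∉ A := by
    simp only [hA, mem_biUnion, mem_univ, true_and, not_exists]
    intro j hj
    exact absurd rfl (mem_erase.1 (hP j hj)).1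
  have hAc : A.card + kk i = ∑ j, kk j + a := by
    rw [card_eq_sum (c := c) A]
    simp_rw [hPj, hPc]
    rw [← Finset.add_sum_erase _ _ (mem_univ i), ← Finset.add_sum_erase univ kk (mem_univ i)]
    rw [if_pos rfl]
    have : ∑ j ∈ univ.erase i, (if j = i then a else kk j) = ∑ j ∈ univ.erase i, kk j :=
      sum_congr rfl fun j hj => if_neg (ne_of_mem_erase hj)
    rw [this]; ring
  -- the big set
  set B : Finset (Fin N) := A ∪ ((univ \ cls c i).erase x) with hB
  have hAB : A ⊆ B := subset_union_left
  have hBi : B ∩ cls c i = P i := by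
    ext z
    have := congrArg (fun S => z ∈ S) (hPj i)
    simp only [mem_inter, eq_iff_iff] at this
    simp only [hB, mem_inter, mem_union, mem_erase, mem_sdiff, mem_univ, true_and]
    rw [← this]
    tauto
  have hxB : x ∉ B := by simp [hB, hxA]
  have hBc : k ≤ B.card := by
    have e1 : B.card = (B ∩ cls c i).card + (B \ cls c i).card := by
      rw [card_inter_add_card_sdiff]
    have e2 : ((univ \ cls c i).erase x) ⊆ B \ cls c i := by
      intro z hz
      rw [mem_sdiff]
      exact ⟨mem_union_right _ hz, (mem_sdiff.1 (mem_of_mem_erase hz)).2⟩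
    have e3 := card_le_card e2
    have e4 := pred_card_le_card_erase (s := univ \ cls c i) (a := x)
    have e5 : (univ \ cls c i).card = N - (cls c i).card := by
      rw [card_sdiff_of_subset (subset_univ _), card_univ, Fintype.card_fin]
    have e6 : (cls c i).card ≤ N := by
      simpa using card_le_univ (cls c i)
    have e7 : (B ∩ cls c i).card = a := by rw [hBi, hPc, if_pos rfl]
    omega
  have hAk : A.card ≤ k := by
    unfold slack at h3
    omega
  obtain ⟨F, hAF, hFB, hFc⟩ := exists_subsuperset_card_eq hAB hAk hBc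
  refine ⟨F, mem_fam.2 ⟨hFc, fun j => ?_⟩, fun hx => hxB (hFB hx), ?_⟩
  · have : P j ⊆ F ∩ cls c j := by
      rw [← hPj j]
      exact inter_subset_inter_right hAF
    have := card_le_card this
    rw [hPc] at this
    split_ifs at this with hj
    · subst hj; omega
    · exact this
  · have e1 : F ∩ cls c i = P i := by
      apply Subset.antisymm
      · rw [← hBi]; exact inter_subset_inter_right hFB
      · rw [← hPj i]; exact inter_subset_inter_right hAF
    rw [e1, hPc, if_pos rfl]

end aux

/-- Region A. One class has exactly `2 k_i` points, `k_i ≥ 2`, the slack is positive, and all other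
classes have at least `2 (k_j + s)` points (there is at least one other class). -/
theorem regionA {N d : ℕ} {c : Fin N → Fin d} {k : ℕ} {kk : Fin d → ℕ} (hst : Standing c k kk)
    (i : Fin d) (hi : 2 ≤ kk i) (hn : (cls c i).card = 2 * kk i) (hs : 1 ≤ slack k kk)
    (hd : ∃ j, j ≠ i) (hj : ∀ j, j ≠ i → 2 * (kk j + slack k kk) ≤ (cls c j).card) :
    ¬ HasEKR c k kk := by
  classical
  obtain ⟨j0, hj0⟩ := hd
  have hN : 2 * k ≤ N := by
    have e := card_eq_sum (c := c) univ
    simp only [card_univ, Fintype.card_fin, univ_inter] at e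
    rw [← Finset.add_sum_erase _ _ (mem_univ i),
      ← Finset.add_sum_erase (univ.erase i) _ (mem_erase.2 ⟨hj0, mem_univ j0⟩)] at e
    have e1 : ∑ j ∈ (univ.erase i).erase j0, 2 * kk j
        ≤ ∑ j ∈ (univ.erase i).erase j0, (cls c j).card := by
      refine sum_le_sum fun j hjm => ?_
      have := hj j (ne_of_mem_erase (mem_of_mem_erase hjm))
      omega
    rw [← mul_sum] at e1
    have e2 := Finset.add_sum_erase univ kk (mem_univ i)
    have e3 := Finset.add_sum_erase (univ.erase i) kk (mem_erase.2 ⟨hj0, mem_univ j0⟩)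
    have e4 := hj j0 hj0
    have e5 := hst.2
    unfold slack at e4
    omega
  have hne : Nonempty (Fin N) := by
    obtain ⟨x, -⟩ := card_pos.1 (show 0 < (cls c i).card by omega)
    exact ⟨x⟩
  have hki : kk i ≤ k := (Finset.single_le_sum (fun _ _ => Nat.zero_le _) (mem_univ i)).trans hst.2
  -- the competing families
  have beat : ∀ x, c x = i → ∃ G ⊆ fam c k kk, (G : Set (Finset (Fin N))).Intersecting ∧
      ((fam c k kk).filter (fun F => x ∈ F)).card < G.card := by
    intro x hx
    refine ⟨(fam c k kk).filter (fun F => x ∈ F ∨ kk i < (F ∩ cls c i).card),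
      filter_subset _ _, ?_, ?_⟩
    · intro F hF F' hF'
      rw [mem_coe, mem_filter, mem_fam] at hF hF'
      obtain ⟨⟨-, f2⟩, f3⟩ := hF
      obtain ⟨⟨-, g2⟩, g3⟩ := hF'
      rw [disjoint_iff_inter_eq_empty]
      intro hdis
      have key : (F ∩ cls c i).card + (F' ∩ cls c i).card ≤ (cls c i).card := by
        rw [← card_union_of_disjoint]
        · exact card_le_card (union_subset inter_subset_right inter_subset_right)
        · rw [disjoint_iff_inter_eq_empty]
          ext z
          have := congrArg (fun S => z ∈ S) hdis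
          simp only [mem_inter, notMem_empty, eq_iff_iff, iff_false] at this
          simp only [mem_inter, notMem_empty, iff_false]
          tauto
      have a1 := f2 i
      have a2 := g2 i
      rcases f3 with f3 | f3
      · rcases g3 with g3 | g3
        · have : x ∈ F ∩ F' := mem_inter.2 ⟨f3, g3⟩
          rw [hdis] at this
          exact absurd this (notMem_empty x)
        · omega
      · omega
    · refine card_lt_card ?_
      rw [ssubset_iff_of_subset]
      · obtain ⟨F, hF, hxF, hFi⟩ := exists_member hst i (kk i + 1) x (by omega) (by omega)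
          (by omega) (by omega)
        refine ⟨F, ?_, ?_⟩
        · rw [mem_filter]
          exact ⟨hF, Or.inr (by omega)⟩
        · rw [mem_filter]
          exact fun h => hxF h.2
      · intro F hF
        rw [mem_filter] at hF ⊢
        exact ⟨hF.1, Or.inl hF.2⟩
  refine not_ekr_of_beat (fun x hmax => ?_) hne
  by_cases hx : c x = i
  · exact beat x hx
  · obtain ⟨x0, hx0⟩ := card_pos.1 (show 0 < (cls c i).card by omega)
    have hx0 : c x0 = i := mem_cls.1 hx0
    obtain ⟨G, h1, h2, h3⟩ := beat x0 hx0
    refine ⟨G, h1, h2, ?_⟩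
    have b1 := star_le_half (c := c) (k := k) (kk := kk) (y := x) hst.2 (hj _ hx)
    have b2 := half_le_star (c := c) (k := k) (kk := kk) (x := x0) (by rw [hx0]; omega)
    omega

/-- Region B. Ground set of size `n = 2k`; some class has `k_i ≥ 2` and `n_i < 2 k_i + s`. -/
theorem regionB {N d : ℕ} {c : Fin N → Fin d} {k : ℕ} {kk : Fin d → ℕ} (hst : Standing c k kk)
    (hN : N = 2 * k) (i : Fin d) (hi : 2 ≤ kk i) (h2 : 2 * kk i ≤ (cls c i).card)
    (hn : (cls c i).card < 2 * kk i + slack k kk) :
    ¬ HasEKR c k kk := by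
  classical
  have hne : Nonempty (Fin N) := by
    obtain ⟨x, -⟩ := card_pos.1 (show 0 < (cls c i).card by omega)
    exact ⟨x⟩
  refine not_ekr_of_beat (fun x _ => ?_) hne
  have hki : kk i ≤ k := (Finset.single_le_sum (fun _ _ => Nat.zero_le _) (mem_univ i)).trans hst.2
  refine ⟨(fam c k kk).filter (fun F => x ∈ F ∨ Fᶜ ∉ fam c k kk), filter_subset _ _, ?_, ?_⟩
  · intro F hF F' hF'
    rw [mem_coe, mem_filter] at hF hF'
    intro hdis
    have c1 := (mem_fam.1 hF.1).1
    have c2 := (mem_fam.1 hF'.1).1
    have hsub : F' ⊆ Fᶜ := by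
      intro z hz
      rw [mem_compl]
      exact fun h => (disjoint_left.1 hdis) h hz
    have heq : F' = Fᶜ := by
      refine eq_of_subset_of_card_le hsub ?_
      rw [card_compl, Fintype.card_fin]
      omega
    rcases hF.2 with f | f
    · rcases hF'.2 with g | g
      · rw [heq, mem_compl] at g
        exact g f
      · rw [heq, compl_compl] at g
        exact g hF.1
    · rw [← heq] at f
      exact f hF'.1
  · refine card_lt_card ?_
    rw [ssubset_iff_of_subset]
    · obtain ⟨F, hF, hxF, hFi⟩ := exists_member hst i ((cls c i).card - kk i + 1) x (by omega)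
        (by omega) (by omega) (by omega)
      refine ⟨F, ?_, ?_⟩
      · rw [mem_filter]
        refine ⟨hF, Or.inr fun hc => ?_⟩
        have e1 := (mem_fam.1 hc).2 i
        have e2 : (Fᶜ ∩ cls c i).card + (F ∩ cls c i).card = (cls c i).card := by
          rw [← card_union_of_disjoint]
          · congr 1
            ext z
            simp only [mem_union, mem_inter, mem_compl]
            tauto
          · rw [disjoint_left]
            intro z hz hz'
            exact (mem_compl.1 (mem_inter.1 hz).1) (mem_inter.1 hz').1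
        omega
      · rw [mem_filter]
        exact fun h => hxF h.2
    · intro F hF
      rw [mem_filter] at hF ⊢
      exact ⟨hF.1, Or.inl hF.2⟩

/-- Number of members of `H` with exactly `a` elements in the first class, two classes. -/
lemma layer_card {N : ℕ} {c : Fin N → Fin 2} {k : ℕ} {kk : Fin 2 → ℕ} (a b : ℕ) (hab : a + b = k)
    (ha : kk 0 ≤ a) (hb : kk 1 ≤ b) :
    ((fam c k kk).filter (fun F => (F ∩ cls c 0).card = a)).card
      = (cls c 0).card.choose a * (cls c 1).card.choose b := by
  classical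
  rw [← card_powersetCard, ← card_powersetCard, ← card_product]
  have hdis : Disjoint (cls c 0) (cls c 1) := by
    rw [disjoint_left]
    intro z h0 h1
    rw [mem_cls] at h0 h1
    rw [h0] at h1
    exact absurd h1 (by decide)
  have hun : ∀ F : Finset (Fin N), F ∩ cls c 0 ∪ F ∩ cls c 1 = F := by
    intro F
    ext z
    simp only [mem_union, mem_inter, mem_cls]
    have : c z = 0 ∨ c z = 1 := by
      have := (c z).2
      rcases Fin.exists_fin_two.1 ⟨c z, rfl⟩ with h | h
      · exact Or.inl h
      · exact Or.inr h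
    tauto
  refine card_nbij' (fun F => (F ∩ cls c 0, F ∩ cls c 1)) (fun P => P.1 ∪ P.2) ?_ ?_ ?_ ?_
  · intro F hF
    simp only [coe_filter, Set.mem_ofPred_eq, mem_fam] at hF
    simp only [coe_product, Set.mem_prod, mem_coe, mem_powersetCard]
    have h3 := card_eq_sum (c := c) F
    rw [Fin.sum_univ_two] at h3
    refine ⟨⟨inter_subset_right, hF.2⟩, inter_subset_right, by omega⟩
  · rintro ⟨A, B⟩ hP
    simp only [coe_product, Set.mem_prod, mem_coe, mem_powersetCard] at hP
    obtain ⟨⟨hA, hA'⟩, hB, hB'⟩ := hP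
    simp only [coe_filter, Set.mem_ofPred_eq, mem_fam]
    have e0 : (A ∪ B) ∩ cls c 0 = A := by
      ext z
      have := @hA z
      have := @hB z
      have := (disjoint_left.1 hdis) (a := z)
      simp only [mem_inter, mem_union]
      tauto
    have e1 : (A ∪ B) ∩ cls c 1 = B := by
      ext z
      have := @hA z
      have := @hB z
      have := (disjoint_left.1 hdis) (a := z)
      simp only [mem_inter, mem_union]
      tauto
    have h3 := card_eq_sum (c := c) (A ∪ B)
    rw [Fin.sum_univ_two, e0, e1] at h3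
    refine ⟨⟨by omega, ?_⟩, by rw [e0]; exact hA'⟩
    rw [Fin.forall_fin_two, e0, e1]
    omega
  · intro F _
    exact hun F
  · rintro ⟨A, B⟩ hP
    simp only [coe_product, Set.mem_prod, mem_coe, mem_powersetCard] at hP
    obtain ⟨⟨hA, hA'⟩, hB, hB'⟩ := hP
    refine Prod.ext ?_ ?_
    · ext z
      have := @hA z
      have := @hB z
      have := (disjoint_left.1 hdis) (a := z)
      simp only [mem_inter, mem_union]
      tauto
    · ext z
      have := @hA z
      have := @hB z
      have := (disjoint_left.1 hdis) (a := z)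
      simp only [mem_inter, mem_union]
      tauto

lemma num1 (X Y Z g : ℕ) (hX : 0 < X) (hg : 5 ≤ g) (r1 : X * (g + 2) = Y * (g + 3))
    (r2 : Y * (g + 1) = Z * (g + 4)) : 4 * X < 4 * Y + Z := by
  have e1 : X * ((g + 2) * (g + 1)) = Z * ((g + 3) * (g + 4)) := by
    calc X * ((g + 2) * (g + 1)) = X * (g + 2) * (g + 1) := by ring
      _ = Y * (g + 1) * (g + 3) := by rw [r1]; ring
      _ = Z * ((g + 3) * (g + 4)) := by rw [r2]; ring
  by_contra hcon
  push Not at hcon
  have e2 : (4 * Y + Z) * ((g + 3) * (g + 4)) ≤ 4 * X * ((g + 3) * (g + 4)) :=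
    Nat.mul_le_mul_right _ hcon
  have e3 : (4 * Y + Z) * ((g + 3) * (g + 4))
      = X * (4 * (g + 2) * (g + 4) + (g + 2) * (g + 1)) := by
    calc (4 * Y + Z) * ((g + 3) * (g + 4))
        = 4 * (Y * (g + 3)) * (g + 4) + Z * ((g + 3) * (g + 4)) := by ring
      _ = 4 * (X * (g + 2)) * (g + 4) + X * ((g + 2) * (g + 1)) := by rw [← r1, ← e1]
      _ = _ := by ring
  have e4 : X * (4 * (g + 2) * (g + 4) + (g + 2) * (g + 1)) ≤ X * (4 * ((g + 3) * (g + 4))) := by
    rw [← e3]
    refine e2.trans (le_of_eq ?_)
    ring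
  have e5 := Nat.le_of_mul_le_mul_left e4 hX
  nlinarith

lemma num2 (X Y Z g : ℕ) (hX : 0 < X) (hg : 5 ≤ g) (r1 : X * (g + 2) = Y * (g + 3))
    (r2 : Y * (g + 1) = Z * (g + 4)) : 10 * X < 10 * Y + 5 * Z := by
  have := num1 X Y Z g hX hg r1 r2
  have h2 : Y ≤ X := by
    by_contra hcon
    push Not at hcon
    nlinarith
  nlinarith

/-- Region C. Two classes of sizes `5` and `2k - 4`, with `k_1 = 2`, `k_2 = k - 4`, for every
`k ≥ 9`: here `n = 2k + 1 > 2k`, `s = 2`, and `n_i > 2 k_i` and `n_i > s + k_i` for both classes. -/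
theorem regionC {k : ℕ} (hk : 9 ≤ k) (c : Fin (2 * k + 1) → Fin 2)
    (h0 : (cls c 0).card = 5) : ¬ HasEKR c k ![2, k - 4] := by
  classical
  set kk : Fin 2 → ℕ := ![2, k - 4] with hkk
  have k0 : kk 0 = 2 := rfl
  have k1 : kk 1 = k - 4 := rfl
  have hsum : ∑ i, kk i = k - 2 := by rw [Fin.sum_univ_two, k0, k1]; omega
  have hs : slack k kk = 2 := by unfold slack; omega
  have h1 : (cls c 1).card = 2 * k - 4 := by
    have e := card_eq_sum (c := c) univ
    simp only [card_univ, Fintype.card_fin, univ_inter, Fin.sum_univ_two] at e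
    omega
  have hsk : ∑ i, kk i ≤ k := by omega
  obtain ⟨h, rfl⟩ : ∃ h, k = h + 2 := ⟨k - 2, by omega⟩
  have h1' : (cls c 1).card = 2 * h := by omega
  -- layers
  have l2 := layer_card (c := c) (k := h + 2) (kk := kk) 2 h (by omega) (by omega) (by omega)
  have l3 := layer_card (c := c) (k := h + 2) (kk := kk) 3 (h - 1) (by omega) (by omega) (by omega)
  have l4 := layer_card (c := c) (k := h + 2) (kk := kk) 4 (h - 2) (by omega) (by omega) (by omega)
  rw [h0, h1'] at l2 l3 l4
  have c52 : Nat.choose 5 2 = 10 := by decide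
  have c53 : Nat.choose 5 3 = 10 := by decide
  have c54 : Nat.choose 5 4 = 5 := by decide
  rw [c52] at l2
  rw [c53] at l3
  rw [c54] at l4
  obtain ⟨g, rfl⟩ : ∃ g, h = g + 2 := ⟨h - 2, by omega⟩
  simp only [show g + 2 - 1 = g + 1 by omega, show g + 2 - 2 = g by omega] at l3 l4
  -- binomial recursions
  have r1 : (2 * (g + 2)).choose (g + 2) * (g + 2) = (2 * (g + 2)).choose (g + 1) * (g + 3) := by
    have := Nat.choose_succ_right_eq (2 * (g + 2)) (g + 1)
    rw [this]
    congr 1
    omega
  have r2 : (2 * (g + 2)).choose (g + 1) * (g + 1) = (2 * (g + 2)).choose g * (g + 4) := by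
    have := Nat.choose_succ_right_eq (2 * (g + 2)) g
    rw [this]
    congr 1
    omega
  set X := (2 * (g + 2)).choose (g + 2)
  set Y := (2 * (g + 2)).choose (g + 1)
  set Z := (2 * (g + 2)).choose g
  set H := fam c (g + 2 + 2) kk with hH
  -- decomposition of H
  have range : ∀ F ∈ H, (F ∩ cls c 0).card = 2 ∨ (F ∩ cls c 0).card = 3 ∨
      (F ∩ cls c 0).card = 4 := by
    intro F hF
    have a1 := (mem_fam.1 hF).2 0
    have a2 := inter_cls_le hF hsk 0
    omega
  have sumH : ∀ f : ℕ → ℕ, ∑ F ∈ H, f (F ∩ cls c 0).card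
      = (10 * X) * f 2 + (10 * Y) * f 3 + (5 * Z) * f 4 := by
    intro f
    rw [← sum_fiberwise_of_maps_to (s := H) (t := ({2, 3, 4} : Finset ℕ))
      (g := fun F => (F ∩ cls c 0).card) (fun F hF => by
        simpa using range F hF)]
    have : ∀ a, ∑ F ∈ H.filter (fun F => (F ∩ cls c 0).card = a), f (F ∩ cls c 0).card
        = (H.filter (fun F => (F ∩ cls c 0).card = a)).card * f a := by
      intro a
      rw [sum_const_nat]
      intro F hF
      rw [(mem_filter.1 hF).2]
    simp only [this]
    rw [sum_insert (by decide), sum_insert (by decide), sum_singleton, l2, l3, l4]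
    ring
  have cardH : H.card = 10 * X + 10 * Y + 5 * Z := by
    have := sumH fun _ => 1
    simp only [sum_const, smul_eq_mul, mul_one] at this
    exact this
  have star0 : ∀ x, c x = 0 → 5 * (H.filter (fun F => x ∈ F)).card
      = 20 * X + 30 * Y + 20 * Z := by
    intro x hx
    have e1 := double_count (c := c) (k := g + 2 + 2) (kk := kk) 0
    rw [sum_const_nat fun y hy => star_eq ((mem_cls.1 hy).trans hx.symm), h0, ← hH,
      sumH fun a => a] at e1
    rw [e1]; ring
  have star1 : ∀ x, c x = 1 → 2 * (H.filter (fun F => x ∈ F)).card ≤ H.card := by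
    intro x hx
    refine star_le_half hsk ?_
    rw [hx, h1, k1, hs]
    omega
  -- the big family
  set G := H.filter (fun F => 2 < (F ∩ cls c 0).card) with hG
  have cardG : G.card = 10 * Y + 5 * Z := by
    rw [hG, card_filter, sumH (fun a => if 2 < a then 1 else 0)]
    norm_num
  have GI : (G : Set (Finset (Fin (2 * (g + 2 + 2) + 1)))).Intersecting := by
    intro F hF F' hF'
    rw [mem_coe, mem_filter] at hF hF'
    intro hdis
    have key : (F ∩ cls c 0).card + (F' ∩ cls c 0).card ≤ (cls c 0).card := by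
      rw [← card_union_of_disjoint]
      · exact card_le_card (union_subset inter_subset_right inter_subset_right)
      · exact disjoint_of_subset_left inter_subset_left
          (disjoint_of_subset_right inter_subset_left hdis)
    omega
  intro hE
  obtain ⟨x, hx⟩ := hE G (filter_subset _ _) GI
  rw [← hH] at hx
  have Xpos : 0 < X := Nat.choose_pos (by omega)
  have hg : 5 ≤ g := by omega
  rcases Fin.exists_fin_two.1 ⟨c x, rfl⟩ with hc | hc
  · have e := star0 x hc
    have key := num1 X Y Z g Xpos hg r1 r2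
    omega
  · have e := star1 x hc
    have key := num2 X Y Z g Xpos hg r1 r2
    omega

/-- **Main theorem.** The conjectured sufficient condition for the EKR property of `H` is false.
It fails (A) whenever some class has exactly `2 k_i ≥ 4` points, `s ≥ 1`, and all other classes
(at least one) have at least `2 (k_j + s)` points; (B) on ground sets of size `n = 2k` whenever
some class has `k_i ≥ 2` and `n_i < 2 k_i + s`; and (C) for an infinite family of parameters for
which all the inequalities `n_i > 2 k_i`, `n_i > s + k_i`, `n > 2k` are strict. -/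
theorem result :
    (¬ ∀ (N d : ℕ) (c : Fin N → Fin d) (k : ℕ) (kk : Fin d → ℕ), Standing c k kk →
        (∀ i, 2 * kk i ≤ (cls c i).card) →
        (∃ i0, ∀ i, i ≠ i0 → 0 < kk i → slack k kk + kk i < (cls c i).card) →
        HasEKR c k kk) ∧
    (∀ (N d : ℕ) (c : Fin N → Fin d) (k : ℕ) (kk : Fin d → ℕ), Standing c k kk →
        ∀ i, 2 ≤ kk i → (cls c i).card = 2 * kk i → 1 ≤ slack k kk → (∃ j, j ≠ i) →
        (∀ j, j ≠ i → 2 * (kk j + slack k kk) ≤ (cls c j).card) → ¬ HasEKR c k kk) ∧
    (∀ (N d : ℕ) (c : Fin N → Fin d) (k : ℕ) (kk : Fin d → ℕ), Standing c k kk →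
        N = 2 * k → ∀ i, 2 ≤ kk i → 2 * kk i ≤ (cls c i).card →
        (cls c i).card < 2 * kk i + slack k kk → ¬ HasEKR c k kk) ∧
    (∀ k : ℕ, 9 ≤ k → ∀ c : Fin (2 * k + 1) → Fin 2, (cls c 0).card = 5 →
        Standing c k ![2, k - 4] ∧ (∀ i, 2 * (![2, k - 4] : Fin 2 → ℕ) i < (cls c i).card) ∧
        (∀ i, slack k ![2, k - 4] + (![2, k - 4] : Fin 2 → ℕ) i < (cls c i).card) ∧
        ¬ HasEKR c k ![2, k - 4]) := by
  classical
  have hC : ∀ k : ℕ, 9 ≤ k → ∀ c : Fin (2 * k + 1) → Fin 2, (cls c 0).card = 5 →
        Standing c k ![2, k - 4] ∧ (∀ i, 2 * (![2, k - 4] : Fin 2 → ℕ) i < (cls c i).card) ∧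
        (∀ i, slack k ![2, k - 4] + (![2, k - 4] : Fin 2 → ℕ) i < (cls c i).card) ∧
        ¬ HasEKR c k ![2, k - 4] := by
    intro k hk c h0
    have h1 : (cls c 1).card = 2 * k - 4 := by
      have e := card_eq_sum (c := c) univ
      simp only [card_univ, Fintype.card_fin, univ_inter, Fin.sum_univ_two] at e
      omega
    have hsum : ∑ i, (![2, k - 4] : Fin 2 → ℕ) i = k - 2 := by
      rw [Fin.sum_univ_two]
      simp only [Matrix.cons_val_zero, Matrix.cons_val_one]
      omega
    have hs : slack k ![2, k - 4] = 2 := by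
      have : slack k ![2, k - 4] = k - (k - 2) := congrArg (fun t => k - t) hsum
      omega
    refine ⟨⟨?_, (le_of_eq hsum).trans (by omega)⟩, ?_, ?_, regionC hk c h0⟩
    · rw [Fin.forall_fin_two]
      simp only [Matrix.cons_val_zero, Matrix.cons_val_one]
      omega
    · rw [Fin.forall_fin_two]
      simp only [Matrix.cons_val_zero, Matrix.cons_val_one]
      omega
    · rw [Fin.forall_fin_two, hs]
      simp only [Matrix.cons_val_zero, Matrix.cons_val_one]
      omega
  refine ⟨?_, fun N d c k kk hst i h1 h2 h3 h4 h5 => regionA hst i h1 h2 h3 h4 h5,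
    fun N d c k kk hst hN i h1 h2 h3 => regionB hst hN i h1 h2 h3, hC⟩
  intro h
  set c : Fin (2 * 9 + 1) → Fin 2 := fun x => if x.val < 5 then 0 else 1 with hc
  have h0 : (cls c 0).card = 5 := by decide
  obtain ⟨a1, a2, a3, a4⟩ := hC 9 le_rfl c h0
  exact a4 (h _ _ c 9 _ a1 (fun i => (a2 i).le) ⟨0, fun i _ _ => a3 i⟩)

end Pool.Agent.Results.MP_01f920_co.BeatStars
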